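import Mathlib
import Pool.Agent.R546.GW.Geo
import Pool.Agent.R546.GL.Loc

/-! Many vectors at one vertex. -/

namespace Pool.Agent.R546.GL

open Finset Module Matrix
open Pool.Agent.H548.WM (ht bx mem_bx ht_pos ht_le Rep le_ht' card_bx_le)
open Pool.Agent.H548.BL (rc doubling)
open Pool.Agent.H548.BK (KB mem_KB KP mem_KP)
open Pool.Agent.H548.TC (rep_or prim_neg)
open Pool.Agent.R546.GW

variable {m : ℕ} {n : Fin m → ℕ}

/-- The size of the coefficients. -/
def siz (M : ∀ u v : Fin m, Matrix (Fin (n u)) (Fin (n v)) ℤ) : ℕ :=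
  ∑ u, ∑ v, ∑ i, ∑ j, (M u v i j).natAbs + 1

theorem cf_le (M : ∀ u v : Fin m, Matrix (Fin (n u)) (Fin (n v)) ℤ) (x : ∀ v, Fin (n v) → ℤ)
    {X : ℕ} (u v : Fin m) (hx : ht (x u) ≤ X) (j : Fin (n v)) :
    |cf M x u v j| ≤ ((siz M * X : ℕ) : ℤ) := by
  have e0 : cf M x u v j = ∑ i, x u i * M u v i j := rfl
  rw [e0]
  have h1 : |∑ i, x u i * M u v i j| ≤ ∑ i, (X : ℤ) * |M u v i j| := by
    refine (Finset.abs_sum_le_sum_abs _ _).trans (Finset.sum_le_sum fun i _ => ?_)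
    rw [abs_mul]
    have e1 : |x u i| ≤ (X : ℤ) := (le_ht' (x u) i).trans (by exact_mod_cast hx)
    exact mul_le_mul_of_nonneg_right e1 (abs_nonneg _)
  refine h1.trans ?_
  have h2 : ∑ i, (X : ℤ) * |M u v i j| = ((∑ i, (M u v i j).natAbs) * X : ℕ) := by
    push_cast
    rw [Finset.sum_mul]
    refine Finset.sum_congr rfl fun p _ => ?_
    ring
  rw [h2]
  have h3 : ∑ i, (M u v i j).natAbs ≤ siz M := by
    unfold siz
    calc ∑ i, (M u v i j).natAbs ≤ ∑ i, ∑ j, (M u v i j).natAbs := by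
          apply Finset.sum_le_sum
          intro i _
          exact Finset.single_le_sum (f := fun j => (M u v i j).natAbs)
            (fun _ _ => Nat.zero_le _) (mem_univ j)
      _ ≤ ∑ v, ∑ i, ∑ j, (M u v i j).natAbs :=
          Finset.single_le_sum (f := fun v => ∑ i, ∑ j, (M u v i j).natAbs)
            (fun _ _ => Nat.zero_le _) (mem_univ v)
      _ ≤ ∑ u, ∑ v, ∑ i, ∑ j, (M u v i j).natAbs :=
          Finset.single_le_sum (f := fun u => ∑ v, ∑ i, ∑ j, (M u v i j).natAbs)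
            (fun _ _ => Nat.zero_le _) (mem_univ u)
      _ ≤ _ := Nat.le_succ _
  have h4 : (∑ i, (M u v i j).natAbs) * X ≤ siz M * X := Nat.mul_le_mul_right _ h3
  exact_mod_cast h4

open Classical in
/-- The number of the vectors for which the equations at `w` become dependent. -/
theorem bad_fib {G : SimpleGraph (Fin m)} {M : ∀ u v : Fin m, Matrix (Fin (n u)) (Fin (n v)) ℤ}
    (hR : RankCond G M) {w v : Fin m} (hw : G.Adj w v) (x : ∀ v, Fin (n v) → ℤ) {ρ : ℕ}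
    (hρ : 1 ≤ ρ) :
    (((bx (n v) ρ).filter fun z => ((M w v).map (Int.cast : ℤ → ℝ)).mulVecLin (rc z) ∈
      Submodule.span ℝ ((fun u => rc (cf M x u w)) '' {u | G.Adj w u ∧ u < v})).card : ℝ) ≤
      (3 * (ρ : ℝ)) ^ (n v - 2 * dg G v) * 3 ^ (n v) := by
  set A : Matrix (Fin (n w)) (Fin (n v)) ℝ := (M w v).map (Int.cast : ℤ → ℝ) with hA
  set S : Submodule ℝ (Fin (n w) → ℝ) :=
    Submodule.span ℝ ((fun u => rc (cf M x u w)) '' {u | G.Adj w u ∧ u < v}) with hS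
  have hSr : finrank ℝ S + 1 ≤ dg G w := by
    have e3 : S ≤ Submodule.span ℝ (Set.range fun u : {u // G.Adj w u ∧ u ≠ v} =>
        rc (cf M x u.1 w)) := by
      apply Submodule.span_mono
      rintro _ ⟨u, ⟨hu1, hu2⟩, rfl⟩
      exact ⟨⟨u, hu1, hu2.ne⟩, rfl⟩
    have e4 := Submodule.finrank_mono e3
    have e5 : finrank ℝ (Submodule.span ℝ (Set.range fun u : {u // G.Adj w u ∧ u ≠ v} =>
        rc (cf M x u.1 w))) ≤ Fintype.card {u // G.Adj w u ∧ u ≠ v} := finrank_range_le_card _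
    have e6 := card_nbr_ne hw
    rw [Nat.card_eq_fintype_card] at e6
    omega
  have hV : finrank ℝ (S.comap A.mulVecLin) ≤ n v - 2 * dg G v := by
    have h1 := finrank_comap_le A S
    have h2 := hR w v hw
    have h3 : A.rank ≤ n v := Matrix.rank_le_width A
    rw [← hA] at h2
    have h4 := dg_pos hw
    omega
  let Λ : AddSubgroup (Fin (n v) → ℤ) :=
    ((S.comap A.mulVecLin).toAddSubgroup).comap (rcHom (n v))
  have hΛ : ∀ z, z ∈ Λ ↔ rc z ∈ S.comap A.mulVecLin := fun z => Iff.rfl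
  have hfil : ((bx (n v) ρ).filter fun z => A.mulVecLin (rc z) ∈ S) =
      (bx (n v) ρ).filter (· ∈ Λ) := by
    apply Finset.filter_congr
    intro z _
    rw [hΛ, Submodule.mem_comap]
  rw [hfil]
  have h1 := doubling Λ (S.comap A.mulVecLin) hV (fun z hz => (hΛ z).1 hz) ρ 1 le_rfl hρ
  have h2 : (((bx (n v) 1).filter (· ∈ Λ)).card : ℝ) ≤ 3 ^ (n v) := by
    have h3 := Finset.card_filter_le (bx (n v) 1) (· ∈ Λ)
    have h4 := card_bx_le (n v) (X := 1) le_rfl
    have h5 : (((bx (n v) 1).filter (· ∈ Λ)).card : ℝ) ≤ ((bx (n v) 1).card : ℝ) := by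
      exact_mod_cast h3
    calc (((bx (n v) 1).filter (· ∈ Λ)).card : ℝ) ≤ (bx (n v) 1).card := h5
      _ ≤ (3 * ((1 : ℕ) : ℝ)) ^ (n v) := h4
      _ = 3 ^ (n v) := by norm_num
  calc (((bx (n v) ρ).filter (· ∈ Λ)).card : ℝ)
      ≤ (3 * (ρ : ℝ) / ((1 : ℕ) : ℝ)) ^ (n v - 2 * dg G v) *
        (((bx (n v) 1).filter (· ∈ Λ)).card : ℝ) := h1
    _ ≤ (3 * (ρ : ℝ) / ((1 : ℕ) : ℝ)) ^ (n v - 2 * dg G v) * 3 ^ (n v) := by gcongr
    _ = _ := by rw [Nat.cast_one, div_one]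

theorem ht_neg {N : ℕ} (v : Fin N → ℤ) : ht (-v) = ht v := by
  unfold ht
  congr 1
  funext i
  simp

open Classical in
theorem rep_shell {k N : ℕ} (A : Matrix (Fin k) (Fin N) ℤ) (R D : ℕ) :
    ((KP A R).filter fun z => R < D * ht z).card ≤
      2 * ((KP A R).filter fun z => R < D * ht z ∧ Rep z).card := by
  set Q := (KP A R).filter fun z => R < D * ht z ∧ Rep z with hQ
  have hsub : (KP A R).filter (fun z => R < D * ht z) ⊆ Q ∪ Q.image fun v => -v := by
    intro v hv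
    rw [mem_filter] at hv
    obtain ⟨hv1, hv2⟩ := hv
    have hv' := mem_KP.1 hv1
    rw [mem_union, hQ, mem_filter, mem_image]
    rcases rep_or hv'.2.2 with h | h
    · exact Or.inl ⟨hv1, hv2, h⟩
    · right
      refine ⟨-v, ?_, neg_neg v⟩
      rw [mem_filter, mem_KP, ht_neg]
      refine ⟨⟨hv'.1, ?_, prim_neg hv'.2.2⟩, hv2, h⟩
      rw [mulVec_neg, hv'.2.1, neg_zero]
  have h1 := card_le_card hsub
  have h2 := card_union_le Q (Q.image fun v => -v)
  have h3 : (Q.image fun v => -v).card ≤ Q.card := card_image_le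
  omega

open Classical in
/-- The good vectors at a vertex. -/
noncomputable def gd (G : SimpleGraph (Fin m)) (M : ∀ u v : Fin m, Matrix (Fin (n u)) (Fin (n v)) ℤ)
    (D : ℕ) (x : ∀ v, Fin (n v) → ℤ) (v : Fin m) (R : ℕ) : Finset (Fin (n v) → ℤ) :=
  (bx (n v) R).filter fun z => Rep z ∧ R < D * ht z ∧
    (∀ u, G.Adj v u → u < v → cf M x u v ⬝ᵥ z = 0) ∧
    ∀ w, G.Adj w v → ((M w v).map (Int.cast : ℤ → ℝ)).mulVecLin (rc z) ∉
      Submodule.span ℝ ((fun u => rc (cf M x u w)) '' {u | G.Adj w u ∧ u < v})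

open Classical in
/-- The smaller neighbours. -/
noncomputable def sn (G : SimpleGraph (Fin m)) (v : Fin m) : Finset (Fin m) :=
  univ.filter fun u => G.Adj v u ∧ u < v

theorem sn_le (G : SimpleGraph (Fin m)) (v : Fin m) : (sn G v).card ≤ dg G v := by
  classical
  rw [dg_eq]
  apply card_le_card
  intro u hu
  unfold sn at hu
  rw [mem_filter] at hu ⊢
  exact ⟨hu.1, hu.2.1⟩

theorem sn_sub (G : SimpleGraph (Fin m)) (v : Fin m) : sn G v ⊆ Iio v := by
  classical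
  intro u hu
  unfold sn at hu
  rw [mem_filter] at hu
  rw [mem_Iio]
  exact hu.2.2

open Classical in
/-- Many good vectors at a vertex. -/
theorem fibre {G : SimpleGraph (Fin m)} {M : ∀ u v : Fin m, Matrix (Fin (n u)) (Fin (n v)) ℤ}
    (hR : RankCond G M) (v : Fin m) (hn : dg G v + 2 ≤ n v) :
    ∃ (c : ℝ) (D E p : ℕ), 0 < c ∧ 2 ≤ D ∧ 1 ≤ E ∧
    ∀ (x : ∀ v, Fin (n v) → ℤ),
      LinearIndepOn ℝ (fun u => rc (cf M x u v)) {u | G.Adj v u ∧ u < v} →
      ∀ X : Fin m → ℕ, (∀ u, u < v → 1 ≤ X u ∧ ht (x u) ≤ X u) →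
      E * (∏ u ∈ Iio v, X u) ^ p ≤ X v →
      c * (X v : ℝ) ^ (n v - (sn G v).card) ≤
        (∏ u ∈ sn G v, (X u : ℝ)) * (gd G M D x v (X v)).card := by
  set k := (sn G v).card with hk
  have hkd := sn_le G v
  rw [← hk] at hkd
  obtain ⟨c1, D, E1, p1, hc1, hD, hE1, hprim⟩ := prim_loc (k := k) (N := n v) (by omega)
  set C0 := siz M with hC0
  have hC01 : 1 ≤ C0 := by
    rw [hC0]
    unfold siz
    omega
  have hC0r : (1 : ℝ) ≤ C0 := by exact_mod_cast hC01
  set κ : ℝ := m * 9 ^ (n v) with hκ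
  have hκ0 : 0 ≤ κ := by positivity
  obtain ⟨E2, hE2⟩ := exists_nat_ge (4 * κ / c1)
  refine ⟨c1 / (4 * C0 ^ m), D, E1 * C0 ^ (m * p1) + E2 * C0 ^ m, p1 + 1, by positivity, hD,
    by
      have : 1 ≤ E1 * C0 ^ (m * p1) := Nat.one_le_iff_ne_zero.2 (by positivity)
      omega, ?_⟩
  intro x hli X hX hgr
  set P := ∏ u ∈ Iio v, X u with hP
  have hP1 : 1 ≤ P := by
    rw [hP]
    exact Nat.one_le_iff_ne_zero.2 (Finset.prod_ne_zero_iff.2 fun u hu => by
      have := (hX u (mem_Iio.1 hu)).1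
      omega)
  have hkm : k ≤ m := by
    have := Finset.card_le_univ (sn G v)
    rwa [Fintype.card_fin] at this
  -- the product of the sizes of the smaller neighbours
  have hsnP : ∏ u ∈ sn G v, X u ≤ P := by
    rw [hP]
    apply Finset.prod_le_prod_of_subset_of_one_le' (sn_sub G v)
    intro u hu _
    exact (hX u (mem_Iio.1 hu)).1
  set e := (sn G v).equivFin.symm with he
  set A : Matrix (Fin k) (Fin (n v)) ℤ := Matrix.of fun i => cf M x (e i).1 v with hA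
  have hsn : ∀ i, G.Adj v (e i).1 ∧ (e i).1 < v := by
    intro i
    have h1 := (e i).2
    unfold sn at h1
    rw [mem_filter] at h1
    exact h1.2
  have hrow : LinearIndependent ℤ A.row := by
    rw [← linearIndependent_algebraMap_comp_iff (R := ℤ) (S := ℝ)]
    have h1 : LinearIndependent ℝ (fun u : ({u | G.Adj v u ∧ u < v} : Set (Fin m)) =>
        rc (cf M x u v)) := hli
    have h2 := h1.comp (fun i : Fin k => ⟨(e i).1, hsn i⟩) (by
      intro i j hij
      have h3 := congrArg Subtype.val hij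
      exact e.injective (Subtype.ext h3))
    exact h2
  set V : Fin k → ℕ := fun i => C0 * X (e i).1 with hV
  have hVprod : ∏ i, V i = C0 ^ k * ∏ u ∈ sn G v, X u := by
    have h1 : ∏ i, V i = ∏ u : sn G v, C0 * X u.1 :=
      Fintype.prod_equiv e (fun i => V i) (fun u : sn G v => C0 * X u.1) fun i => rfl
    rw [h1, Finset.prod_coe_sort (sn G v) (fun u => C0 * X u), Finset.prod_mul_distrib,
      Finset.prod_const]
  have hVle : ∏ i, V i ≤ C0 ^ m * P := by
    rw [hVprod]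
    exact Nat.mul_le_mul (Nat.pow_le_pow_right hC01 hkm) hsnP
  have hgr1 : E1 * (∏ i, V i) ^ p1 ≤ X v := by
    refine le_trans ?_ hgr
    calc E1 * (∏ i, V i) ^ p1 ≤ E1 * (C0 ^ m * P) ^ p1 := by gcongr
      _ = E1 * C0 ^ (m * p1) * P ^ p1 := by
          rw [mul_pow, ← pow_mul]
          ring
      _ ≤ (E1 * C0 ^ (m * p1) + E2 * C0 ^ m) * P ^ (p1 + 1) := by
          apply Nat.mul_le_mul (Nat.le_add_right _ _)
          exact Nat.pow_le_pow_right hP1 (Nat.le_succ _)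
  have hgr2 : E2 * (C0 ^ m * P) ≤ X v := by
    refine le_trans ?_ hgr
    calc E2 * (C0 ^ m * P) = (E2 * C0 ^ m) * P ^ 1 := by ring
      _ ≤ (E1 * C0 ^ (m * p1) + E2 * C0 ^ m) * P ^ (p1 + 1) := by
          apply Nat.mul_le_mul (Nat.le_add_left _ _)
          exact Nat.pow_le_pow_right hP1 (by omega)
  have hXv : 1 ≤ X v := by
    refine le_trans ?_ hgr1
    have : ∏ i, V i ≠ 0 := by
      rw [Finset.prod_ne_zero_iff]
      intro i _
      have := (hX (e i).1 (hsn i).2).1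
      simp only [hV]
      positivity
    exact Nat.one_le_iff_ne_zero.2 (by positivity)
  have hXvr : (1 : ℝ) ≤ X v := by exact_mod_cast hXv
  have hmain := hprim A hrow V (X v) (fun i => by
      have := (hX (e i).1 (hsn i).2).1
      simp only [hV]
      exact Nat.one_le_iff_ne_zero.2 (by positivity)) (fun i j => by
      exact cf_le M x (e i).1 v ((hX (e i).1 (hsn i).2).2) j) hgr1
  -- the bad vectors
  set F := gd G M D x v (X v) with hF
  set nb : Finset (Fin m) := univ.filter fun w => G.Adj w v with hnb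
  set bad : Fin m → Finset (Fin (n v) → ℤ) := fun w => (bx (n v) (X v)).filter fun z =>
    ((M w v).map (Int.cast : ℤ → ℝ)).mulVecLin (rc z) ∈
      Submodule.span ℝ ((fun u => rc (cf M x u w)) '' {u | G.Adj w u ∧ u < v}) with hbad
  have hAz : ∀ z : Fin (n v) → ℤ, A *ᵥ z = 0 → ∀ u, G.Adj v u → u < v →
      cf M x u v ⬝ᵥ z = 0 := by
    intro z hz u hu1 hu2
    have hu : u ∈ sn G v := by
      unfold sn
      rw [mem_filter]
      exact ⟨mem_univ _, hu1, hu2⟩
    have h1 := congrFun hz (e.symm ⟨u, hu⟩)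
    have h2 : (A *ᵥ z) (e.symm ⟨u, hu⟩) = cf M x (e (e.symm ⟨u, hu⟩)).1 v ⬝ᵥ z := rfl
    rw [h2, Equiv.apply_symm_apply] at h1
    exact h1
  have hsub : ((KP A (X v)).filter fun z => X v < D * ht z ∧ Rep z) ⊆ F ∪ nb.biUnion bad := by
    intro z hz
    rw [mem_filter, mem_KP] at hz
    obtain ⟨⟨z1, z2, -⟩, z4, z5⟩ := hz
    rw [mem_union]
    by_cases hb : ∃ w, G.Adj w v ∧ ((M w v).map (Int.cast : ℤ → ℝ)).mulVecLin (rc z) ∈
        Submodule.span ℝ ((fun u => rc (cf M x u w)) '' {u | G.Adj w u ∧ u < v})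
    · obtain ⟨w, hw1, hw2⟩ := hb
      right
      rw [mem_biUnion]
      refine ⟨w, ?_, ?_⟩
      · rw [hnb, mem_filter]
        exact ⟨mem_univ _, hw1⟩
      · rw [hbad]
        rw [mem_filter, mem_bx]
        exact ⟨z1, hw2⟩
    · left
      push Not at hb
      rw [hF]
      unfold gd
      rw [mem_filter, mem_bx]
      exact ⟨z1, z5, z4, hAz z z2, hb⟩
  have h1 := card_le_card hsub
  have h2 := card_union_le F (nb.biUnion bad)
  have h3 := rep_shell A (X v) D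
  have h4 : (((nb.biUnion bad).card : ℕ) : ℝ) ≤ κ * (X v : ℝ) ^ (n v - k - 1) := by
    have e1 : (((nb.biUnion bad).card : ℕ) : ℝ) ≤ ∑ w ∈ nb, ((bad w).card : ℝ) := by
      exact_mod_cast Finset.card_biUnion_le
    have e2 : ∀ w ∈ nb, ((bad w).card : ℝ) ≤ 9 ^ (n v) * (X v : ℝ) ^ (n v - k - 1) := by
      intro w hw
      rw [hnb, mem_filter] at hw
      have hwv : G.Adj w v := hw.2
      have e3 := bad_fib hR hwv x hXv
      have e4 := dg_pos hwv.symm
      calc ((bad w).card : ℝ) ≤ (3 * (X v : ℝ)) ^ (n v - 2 * dg G v) * 3 ^ (n v) := e3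
        _ ≤ (3 ^ (n v) * (X v : ℝ) ^ (n v - k - 1)) * 3 ^ (n v) := by
            rw [mul_pow]
            have e5 : (3 : ℝ) ^ (n v - 2 * dg G v) ≤ 3 ^ (n v) :=
              pow_le_pow_right₀ (by norm_num) (by omega)
            have e6 : (X v : ℝ) ^ (n v - 2 * dg G v) ≤ (X v : ℝ) ^ (n v - k - 1) :=
              pow_le_pow_right₀ hXvr (by omega)
            gcongr
        _ = (3 * 3) ^ (n v) * (X v : ℝ) ^ (n v - k - 1) := by
            rw [mul_pow]
            ring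
        _ = _ := by norm_num
    have e7 : (nb.card : ℝ) ≤ m := by
      have := Finset.card_le_univ nb
      rw [Fintype.card_fin] at this
      exact_mod_cast this
    calc (((nb.biUnion bad).card : ℕ) : ℝ) ≤ ∑ w ∈ nb, ((bad w).card : ℝ) := e1
      _ ≤ ∑ w ∈ nb, 9 ^ (n v) * (X v : ℝ) ^ (n v - k - 1) := Finset.sum_le_sum e2
      _ = nb.card * (9 ^ (n v) * (X v : ℝ) ^ (n v - k - 1)) := by
          rw [Finset.sum_const, nsmul_eq_mul]
      _ ≤ m * (9 ^ (n v) * (X v : ℝ) ^ (n v - k - 1)) := by gcongr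
      _ = _ := by
          rw [hκ]
          ring
  set Pr : ℝ := ∏ i, (V i : ℝ) with hPr
  have hPr0 : 0 ≤ Pr := by
    rw [hPr]
    positivity
  have hPr1 : Pr = C0 ^ k * ∏ u ∈ sn G v, (X u : ℝ) := by
    have : ((∏ i, V i : ℕ) : ℝ) = ((C0 ^ k * ∏ u ∈ sn G v, X u : ℕ) : ℝ) := by rw [hVprod]
    push_cast at this
    exact this
  have hPr2 : Pr ≤ C0 ^ m * P := by
    have : ((∏ i, V i : ℕ) : ℝ) ≤ ((C0 ^ m * P : ℕ) : ℝ) := by exact_mod_cast hVle
    push_cast at this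
    exact this
  have h5 : (((KP A (X v)).filter fun z => X v < D * ht z).card : ℝ) ≤
      2 * (F.card + κ * (X v : ℝ) ^ (n v - k - 1)) := by
    have e1 : (((KP A (X v)).filter fun z => X v < D * ht z).card : ℝ) ≤
        2 * (((F.card + (nb.biUnion bad).card : ℕ)) : ℝ) := by
      exact_mod_cast (by omega : ((KP A (X v)).filter fun z => X v < D * ht z).card ≤
        2 * (F.card + (nb.biUnion bad).card))
    push_cast at e1
    linarith
  have h6 : c1 * (X v : ℝ) ^ (n v - k) ≤ Pr * (2 * (F.card + κ * (X v : ℝ) ^ (n v - k - 1))) :=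
    hmain.trans (by gcongr)
  have h7 : Pr * (2 * (κ * (X v : ℝ) ^ (n v - k - 1))) ≤ c1 / 2 * (X v : ℝ) ^ (n v - k) := by
    have e1 : (X v : ℝ) ^ (n v - k) = (X v : ℝ) ^ (n v - k - 1) * X v := by
      rw [← pow_succ]
      congr 1
      omega
    have e2 : 4 * κ ≤ c1 * (E2 : ℝ) := by
      rw [div_le_iff₀ hc1] at hE2
      linarith
    have e3 : (E2 : ℝ) * (C0 ^ m * P) ≤ X v := by exact_mod_cast hgr2
    calc Pr * (2 * (κ * (X v : ℝ) ^ (n v - k - 1)))
        ≤ (C0 ^ m * P) * (2 * (κ * (X v : ℝ) ^ (n v - k - 1))) := by gcongr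
      _ = (4 * κ) / 2 * ((C0 ^ m * P) * (X v : ℝ) ^ (n v - k - 1)) := by ring
      _ ≤ (c1 * (E2 : ℝ)) / 2 * ((C0 ^ m * P) * (X v : ℝ) ^ (n v - k - 1)) := by gcongr
      _ = c1 / 2 * ((X v : ℝ) ^ (n v - k - 1) * (E2 * (C0 ^ m * P))) := by ring
      _ ≤ c1 / 2 * ((X v : ℝ) ^ (n v - k - 1) * X v) := by gcongr
      _ = c1 / 2 * (X v : ℝ) ^ (n v - k) := by rw [e1]
  have h8 : c1 / 2 * (X v : ℝ) ^ (n v - k) ≤ 2 * (Pr * F.card) := by
    have e1 : Pr * (2 * (F.card + κ * (X v : ℝ) ^ (n v - k - 1))) =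
      2 * (Pr * F.card) + Pr * (2 * (κ * (X v : ℝ) ^ (n v - k - 1))) := by ring
    rw [e1] at h6
    linarith
  have h9 : Pr ≤ C0 ^ m * ∏ u ∈ sn G v, (X u : ℝ) := by
    rw [hPr1]
    have e1 : (C0 : ℝ) ^ k ≤ (C0 : ℝ) ^ m := pow_le_pow_right₀ hC0r hkm
    gcongr
  rw [div_mul_eq_mul_div, div_le_iff₀ (by positivity)]
  calc c1 * (X v : ℝ) ^ (n v - k) = 2 * (c1 / 2 * (X v : ℝ) ^ (n v - k)) := by ring
    _ ≤ 2 * (2 * (Pr * F.card)) := by gcongr
    _ ≤ 2 * (2 * ((C0 ^ m * ∏ u ∈ sn G v, (X u : ℝ)) * F.card)) := by gcongr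
    _ = _ := by ring

end Pool.Agent.R546.GL
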