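import Mathlib
import Pool.Agent.R546.GL.Fib
import Pool.Agent.R546.GW.Step

/-! Many points in a box. -/

namespace Pool.Agent.R546.GL

open Finset Module Matrix
open Pool.Agent.H548.WM (ht bx mem_bx ht_pos ht_le Rep le_ht' card_bx_le)
open Pool.Agent.H548.BL (rc doubling)
open Pool.Agent.R546.GW

variable {m : ℕ} {n : Fin m → ℕ}

open Classical in
/-- The partial points. -/
noncomputable def PS (G : SimpleGraph (Fin m)) (M : ∀ u v : Fin m, Matrix (Fin (n u)) (Fin (n v)) ℤ)
    (D : ℕ) (X : Fin m → ℕ) (t : ℕ) : Finset (∀ v, Fin (n v) → ℤ) :=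
  (Fintype.piFinset fun v => bx (n v) (X v)).filter fun x =>
    (∀ v : Fin m, v.val < t → Rep (x v) ∧ X v < D * ht (x v)) ∧
    (∀ v : Fin m, t ≤ v.val → x v = 0) ∧
    (∀ u v : Fin m, u.val < t → v.val < t → G.Adj u v → cf M x u v ⬝ᵥ x v = 0) ∧
    ∀ w, LinearIndepOn ℝ (fun u => rc (cf M x u w)) {u | G.Adj w u ∧ u.val < t}

open Classical in
theorem mem_PS {G : SimpleGraph (Fin m)} {M : ∀ u v : Fin m, Matrix (Fin (n u)) (Fin (n v)) ℤ}
    {D : ℕ} {X : Fin m → ℕ} {t : ℕ} {x : ∀ v, Fin (n v) → ℤ} :
    x ∈ PS G M D X t ↔ (∀ v, ht (x v) ≤ X v) ∧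
      (∀ v : Fin m, v.val < t → Rep (x v) ∧ X v < D * ht (x v)) ∧
      (∀ v : Fin m, t ≤ v.val → x v = 0) ∧
      (∀ u v : Fin m, u.val < t → v.val < t → G.Adj u v → cf M x u v ⬝ᵥ x v = 0) ∧
      ∀ w, LinearIndepOn ℝ (fun u => rc (cf M x u w)) {u | G.Adj w u ∧ u.val < t} := by
  unfold PS
  rw [mem_filter, Fintype.mem_piFinset]
  simp only [mem_bx]

open Classical in
theorem step_card {G : SimpleGraph (Fin m)} {M : ∀ u v : Fin m, Matrix (Fin (n u)) (Fin (n v)) ℤ}
    (hM : ∀ u v, M v u = (M u v)ᵀ) (D : ℕ) (X : Fin m → ℕ) (k : Fin m) :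
    ∑ x ∈ PS G M D X k.val, (gd G M D x k (X k)).card ≤ (PS G M D X (k.val + 1)).card := by
  rw [← Finset.card_sigma]
  apply Finset.card_le_card_of_injOn
    (fun s : (Σ _ : (∀ v, Fin (n v) → ℤ), (Fin (n k) → ℤ)) => Function.update s.1 k s.2)
  · rintro ⟨x, z⟩ hs
    rw [mem_coe, Finset.mem_sigma] at hs
    obtain ⟨hx, hz⟩ := hs
    simp only at hx hz
    rw [mem_PS] at hx
    obtain ⟨x1, x2, x3, x4, x5⟩ := hx
    unfold gd at hz
    rw [mem_filter, mem_bx] at hz
    obtain ⟨z1, z2, z3, z4, z5⟩ := hz
    rw [mem_coe]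
    show Function.update x k z ∈ PS G M D X (k.val + 1)
    set x' : ∀ v, Fin (n v) → ℤ := Function.update x k z with hx'
    rw [mem_PS]
    have hcf : ∀ u v, u ≠ k → cf M x' u v = cf M x u v := by
      intro u v hu
      unfold cf
      rw [hx', Function.update_of_ne hu]
    have hxk : x' k = z := by rw [hx', Function.update_self]
    have hxu : ∀ u, u ≠ k → x' u = x u := by
      intro u hu
      rw [hx', Function.update_of_ne hu]
    have hlt : ∀ u : Fin m, u.val < k.val + 1 → u ≠ k → u.val < k.val := by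
      intro u hu hne
      have : u.val ≠ k.val := fun h => hne (Fin.ext h)
      omega
    refine ⟨?_, ?_, ?_, ?_, ?_⟩
    · intro v
      by_cases hv : v = k
      · subst hv
        rw [hxk]
        exact z1
      · rw [hxu v hv]
        exact x1 v
    · intro v hvt
      by_cases hv : v = k
      · subst hv
        rw [hxk]
        exact ⟨z2, z3⟩
      · rw [hxu v hv]
        exact x2 v (hlt v hvt hv)
    · intro v hvt
      have hv : v ≠ k := by
        rintro rfl
        omega
      rw [hxu v hv]
      exact x3 v (by omega)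
    · intro u v hu hv huv
      have hne := huv.ne
      by_cases huk : u = k
      · subst huk
        have hvk : v ≠ u := hne.symm
        have hvs := hlt v hv hvk
        rw [hxu v hvk]
        have h4 := z4 v huv hvs
        unfold cf at h4 ⊢
        rw [hxk]
        rw [hM u v] at h4
        rw [Matrix.vecMul_transpose] at h4
        rw [← Matrix.dotProduct_mulVec, dotProduct_comm]
        exact h4
      · have hus := hlt u hu huk
        rw [hcf u v huk]
        by_cases hvk : v = k
        · subst hvk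
          rw [hxk]
          exact z4 u huv.symm hus
        · rw [hxu v hvk]
          exact x4 u v hus (hlt v hv hvk) huv
    · intro v
      have heq : Set.EqOn (fun u => rc (cf M x u v)) (fun u => rc (cf M x' u v))
          {u | G.Adj v u ∧ u.val < k.val} := by
        intro u hu
        have huk : u ≠ k := by
          rintro rfl
          exact absurd hu.2 (lt_irrefl _)
        show rc (cf M x u v) = rc (cf M x' u v)
        rw [hcf u v huk]
      by_cases hvk : G.Adj v k
      · have hins : {u : Fin m | G.Adj v u ∧ u.val < k.val + 1} =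
            insert k {u : Fin m | G.Adj v u ∧ u.val < k.val} := by
          ext u
          simp only [Set.mem_ofPred_eq, Set.mem_insert_iff]
          constructor
          · rintro ⟨ha, hb⟩
            by_cases huk : u = k
            · exact Or.inl huk
            · exact Or.inr ⟨ha, hlt u hb huk⟩
          · rintro (rfl | ⟨ha, hb⟩)
            · exact ⟨hvk, by omega⟩
            · exact ⟨ha, by omega⟩
        rw [hins, linearIndepOn_insert (by simp)]
        constructor
        · exact (linearIndepOn_congr heq).1 (x5 v)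
        · rw [← heq.image_eq]
          show rc (cf M x' k v) ∉ _
          rw [rc_cf_symm hM, hxk]
          exact z5 v hvk
      · have hins : {u : Fin m | G.Adj v u ∧ u.val < k.val + 1} =
            {u : Fin m | G.Adj v u ∧ u.val < k.val} := by
          ext u
          simp only [Set.mem_ofPred_eq]
          constructor
          · rintro ⟨ha, hb⟩
            refine ⟨ha, hlt u hb ?_⟩
            rintro rfl
            exact hvk ha
          · rintro ⟨ha, hb⟩
            exact ⟨ha, by omega⟩
        rw [hins]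
        exact (linearIndepOn_congr heq).1 (x5 v)
  · rintro ⟨x, z⟩ hs ⟨x', z'⟩ hs' heq
    rw [mem_coe, Finset.mem_sigma] at hs hs'
    have hx := (mem_PS.1 hs.1).2.2.1 k le_rfl
    have hx' := (mem_PS.1 hs'.1).2.2.1 k le_rfl
    simp only at hx hx' heq
    have h1 : z = z' := by
      have := congrFun heq k
      rwa [Function.update_self, Function.update_self] at this
    have h2 : x = x' := by
      funext v
      by_cases hv : v = k
      · subst hv
        rw [hx, hx']
      · have := congrFun heq v
        rwa [Function.update_of_ne hv, Function.update_of_ne hv] at this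
    subst h1
    subst h2
    rfl

theorem pos_of_growth {X : Fin m → ℕ} {E p : ℕ} (hE : 1 ≤ E)
    (h : ∀ v, E * (∏ u ∈ Iio v, X u) ^ p ≤ X v) (v : Fin m) : 1 ≤ X v := by
  induction v using WellFoundedLT.induction with
  | _ v ih =>
    refine le_trans ?_ (h v)
    have h1 : ∏ u ∈ Iio v, X u ≠ 0 := by
      rw [Finset.prod_ne_zero_iff]
      intro u hu
      have := ih u (mem_Iio.1 hu)
      omega
    exact Nat.one_le_iff_ne_zero.2 (by positivity)

open Classical in
theorem gd_mono {G : SimpleGraph (Fin m)} {M : ∀ u v : Fin m, Matrix (Fin (n u)) (Fin (n v)) ℤ}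
    {D D' : ℕ} (h : D ≤ D') (x : ∀ v, Fin (n v) → ℤ) (v : Fin m) (R : ℕ) :
    gd G M D x v R ⊆ gd G M D' x v R := by
  intro z hz
  unfold gd at hz ⊢
  rw [mem_filter] at hz ⊢
  refine ⟨hz.1, hz.2.1, ?_, hz.2.2.2⟩
  exact lt_of_lt_of_le hz.2.2.1 (Nat.mul_le_mul_right _ h)

open Classical in
theorem card_PS {G : SimpleGraph (Fin m)} {M : ∀ u v : Fin m, Matrix (Fin (n u)) (Fin (n v)) ℤ}
    (hM : ∀ u v, M v u = (M u v)ᵀ) (hR : RankCond G M) (hn : ∀ v, dg G v + 2 ≤ n v) :
    ∃ (c : Fin m → ℝ) (D E p : ℕ), (∀ v, 0 < c v) ∧ 2 ≤ D ∧ 1 ≤ E ∧ ∀ X : Fin m → ℕ,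
      (∀ v, E * (∏ u ∈ Iio v, X u) ^ p ≤ X v) → ∀ t, t ≤ m →
      ∏ v ∈ univ.filter (fun v : Fin m => v.val < t),
        (c v * (X v : ℝ) ^ (n v - (sn G v).card) / ∏ u ∈ sn G v, (X u : ℝ)) ≤
        ((PS G M D X t).card : ℝ) := by
  choose c D E p hc hD hE hfib using fun v => fibre hR v (hn v)
  refine ⟨c, ∑ v, D v + 2, ∑ v, E v + 1, ∑ v, p v, hc, by omega, by omega, ?_⟩
  intro X hX t
  have hpos := pos_of_growth (by omega) hX
  induction t with
  | zero =>
    intro _
    have h0 : (univ.filter fun v : Fin m => v.val < 0) = ∅ := by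
      rw [Finset.filter_eq_empty_iff]
      intro v _
      omega
    rw [h0, Finset.prod_empty]
    have h1 : (fun v => (0 : Fin (n v) → ℤ)) ∈ PS G M (∑ v, D v + 2) X 0 := by
      rw [mem_PS]
      refine ⟨?_, ?_, ?_, ?_, ?_⟩
      · intro v
        rw [ht_zero]
        exact Nat.zero_le _
      · intro v hv
        omega
      · intro v _
        rfl
      · intro u v hu
        omega
      · intro w
        have h2 : {u : Fin m | G.Adj w u ∧ u.val < 0} = ∅ := by
          ext u
          simp
        rw [h2]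
        exact linearIndepOn_empty _ _
    exact_mod_cast Finset.card_pos.2 ⟨_, h1⟩
  | succ t ih =>
    intro ht
    have ih' := ih (by omega)
    set k : Fin m := ⟨t, by omega⟩ with hk
    set D' := ∑ v, D v + 2 with hD'
    have hDk : D k ≤ D' := by
      have := Finset.single_le_sum (f := D) (fun _ _ => Nat.zero_le _) (mem_univ k)
      omega
    have hins : (univ.filter fun v : Fin m => v.val < t + 1) =
        insert k (univ.filter fun v : Fin m => v.val < t) := by
      ext v
      simp only [mem_filter, mem_univ, true_and, mem_insert]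
      constructor
      · intro hv
        by_cases h : v = k
        · exact Or.inl h
        · right
          have : v.val ≠ t := fun h' => h (Fin.ext h')
          omega
      · rintro (rfl | hv)
        · show t < t + 1
          omega
        · omega
    rw [hins, Finset.prod_insert (by simp [hk])]
    set fac := c k * (X k : ℝ) ^ (n k - (sn G k).card) / ∏ u ∈ sn G k, (X u : ℝ) with hfac
    have hprod0 : 0 < ∏ u ∈ sn G k, (X u : ℝ) := by
      apply Finset.prod_pos
      intro u _
      exact_mod_cast hpos u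
    have hfac0 : 0 ≤ fac := by
      have := (hc k).le
      positivity
    have hgr : E k * (∏ u ∈ Iio k, X u) ^ p k ≤ X k := by
      refine le_trans ?_ (hX k)
      have h1 : E k ≤ ∑ v, E v + 1 := by
        have := Finset.single_le_sum (f := E) (fun _ _ => Nat.zero_le _) (mem_univ k)
        omega
      have h2 : p k ≤ ∑ v, p v :=
        Finset.single_le_sum (f := p) (fun _ _ => Nat.zero_le _) (mem_univ k)
      have h3 : 1 ≤ ∏ u ∈ Iio k, X u := by
        apply Nat.one_le_iff_ne_zero.2
        rw [Finset.prod_ne_zero_iff]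
        intro u _
        have := hpos u
        omega
      exact Nat.mul_le_mul h1 (Nat.pow_le_pow_right h3 h2)
    have hone : ∀ x ∈ PS G M D' X t, fac ≤ ((gd G M D' x k (X k)).card : ℝ) := by
      intro x hx
      rw [mem_PS] at hx
      obtain ⟨x1, x2, x3, x4, x5⟩ := hx
      have h1 := hfib k x (x5 k) X (fun u _ => ⟨hpos u, x1 u⟩) hgr
      have h2 : ((gd G M (D k) x k (X k)).card : ℝ) ≤ ((gd G M D' x k (X k)).card : ℝ) := by
        exact_mod_cast card_le_card (gd_mono hDk x k (X k))
      rw [hfac, div_le_iff₀ hprod0]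
      calc c k * (X k : ℝ) ^ (n k - (sn G k).card) ≤ _ := h1
        _ ≤ (∏ u ∈ sn G k, (X u : ℝ)) * ((gd G M D' x k (X k)).card : ℝ) := by gcongr
        _ = _ := by ring
    calc fac * ∏ v ∈ univ.filter (fun v : Fin m => v.val < t),
        (c v * (X v : ℝ) ^ (n v - (sn G v).card) / ∏ u ∈ sn G v, (X u : ℝ))
        ≤ fac * ((PS G M D' X t).card : ℝ) := by gcongr
      _ = ∑ x ∈ PS G M D' X t, fac := by
          rw [Finset.sum_const, nsmul_eq_mul]
          ring
      _ ≤ ∑ x ∈ PS G M D' X t, ((gd G M D' x k (X k)).card : ℝ) := Finset.sum_le_sum hone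
      _ ≤ ((PS G M D' X (t + 1)).card : ℝ) := by
          have := step_card (G := G) hM D' X k
          exact_mod_cast this

open Classical in
/-- The larger neighbours. -/
noncomputable def un (G : SimpleGraph (Fin m)) (v : Fin m) : Finset (Fin m) :=
  univ.filter fun u => G.Adj v u ∧ v < u

theorem sn_add_un (G : SimpleGraph (Fin m)) (v : Fin m) : (sn G v).card + (un G v).card = dg G v := by
  classical
  rw [dg_eq, ← Finset.card_union_of_disjoint]
  · congr 1
    ext u
    unfold sn un
    simp only [mem_union, mem_filter, mem_univ, true_and]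
    constructor
    · rintro (h | h)
      · exact h.1
      · exact h.1
    · intro h
      rcases lt_trichotomy u v with h1 | h1 | h1
      · exact Or.inl ⟨h, h1⟩
      · exact absurd h1 h.ne.symm
      · exact Or.inr ⟨h, h1⟩
  · rw [Finset.disjoint_left]
    intro u h1 h2
    unfold sn at h1
    unfold un at h2
    rw [mem_filter] at h1 h2
    exact absurd (h1.2.2.trans h2.2.2) (lt_irrefl _)

theorem prod_eq (G : SimpleGraph (Fin m)) (c : Fin m → ℝ) (X : Fin m → ℝ) (hX : ∀ v, 0 < X v)
    (hn : ∀ v, dg G v + 2 ≤ n v) :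
    ∏ v, (c v * X v ^ (n v - (sn G v).card) / ∏ u ∈ sn G v, X u) =
      (∏ v, c v) * ∏ v, X v ^ (n v - dg G v) := by
  classical
  rw [Finset.prod_div_distrib, Finset.prod_mul_distrib]
  have h1 : ∏ v, ∏ u ∈ sn G v, X u = ∏ u, X u ^ (un G u).card := by
    rw [Finset.prod_comm' (t' := univ) (s' := fun u => un G u)]
    · refine Finset.prod_congr rfl fun u _ => ?_
      rw [Finset.prod_const]
    · intro v u
      unfold sn un
      simp only [mem_filter, mem_univ, true_and, and_true]
      constructor
      · rintro ⟨a, b⟩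
        exact ⟨a.symm, b⟩
      · rintro ⟨a, b⟩
        exact ⟨a.symm, b⟩
  have h2 : ∏ v, X v ^ (n v - (sn G v).card) =
      (∏ v, X v ^ (n v - dg G v)) * ∏ u, X u ^ (un G u).card := by
    rw [← Finset.prod_mul_distrib]
    refine Finset.prod_congr rfl fun v _ => ?_
    rw [← pow_add]
    congr 1
    have e1 := sn_add_un G v
    have e2 := hn v
    omega
  rw [h1, h2]
  have h3 : ∏ u, X u ^ (un G u).card ≠ 0 := by
    rw [Finset.prod_ne_zero_iff]
    intro u _
    exact pow_ne_zero _ (hX u).ne'
  field_simp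

/-- Many points in a box. -/
theorem box_low {G : SimpleGraph (Fin m)} {M : ∀ u v : Fin m, Matrix (Fin (n u)) (Fin (n v)) ℤ}
    (hM : ∀ u v, M v u = (M u v)ᵀ) (hR : RankCond G M) (hn : ∀ v, dg G v + 2 ≤ n v) :
    ∃ (c : ℝ) (D E p : ℕ), 0 < c ∧ 2 ≤ D ∧ 1 ≤ E ∧ ∀ X : Fin m → ℕ,
      (∀ v, E * (∏ u ∈ Iio v, X u) ^ p ≤ X v) →
      c * ∏ v, (X v : ℝ) ^ (n v - dg G v) ≤ ((PS G M D X m).card : ℝ) := by
  obtain ⟨c, D, E, p, hc, hD, hE, h⟩ := card_PS hM hR hn
  refine ⟨∏ v, c v, D, E, p, Finset.prod_pos fun v _ => hc v, hD, hE, ?_⟩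
  intro X hX
  have hpos := pos_of_growth hE hX
  have h1 := h X hX m le_rfl
  have h2 : (univ.filter fun v : Fin m => v.val < m) = univ := by
    rw [Finset.filter_eq_self]
    intro v _
    exact v.2
  rw [h2, prod_eq G c (fun v => (X v : ℝ)) (fun v => by exact_mod_cast hpos v) hn] at h1
  exact h1

end Pool.Agent.R546.GL
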