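import Mathlib
import Pool.Agent.R546.GL.Count
import Pool.Agent.H548.TL.Low

/-! From boxes to heights. -/

namespace Pool.Agent.R546.GL

open Finset Module Matrix
open Pool.Agent.H548.WM (ht bx mem_bx ht_pos ht_le Rep le_ht' card_bx_le)
open Pool.Agent.H548.BL (rc doubling rep_ne)
open Pool.Agent.H548.TL (root)
open Pool.Agent.R546.GW

/-- The rational points of `U` of bounded anticanonical height. -/
def Pts {m : ℕ} {n : Fin m → ℕ} (G : SimpleGraph (Fin m))
    (M : ∀ u v : Fin m, Matrix (Fin (n u)) (Fin (n v)) ℤ) (B : ℝ) : Set (∀ v, Fin (n v) → ℤ) :=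
  {x | (∀ v, Rep (x v)) ∧ Inc G M x ∧ InU G M x ∧ ∏ v, (ht (x v) : ℝ) ^ (n v - dg G v) ≤ B}

theorem PS_sub {m : ℕ} {n : Fin m → ℕ} {G : SimpleGraph (Fin m)}
    {M : ∀ u v : Fin m, Matrix (Fin (n u)) (Fin (n v)) ℤ} {D : ℕ} {X : Fin m → ℕ} {B : ℝ}
    (hB : ∏ v, (X v : ℝ) ^ (n v - dg G v) ≤ B) {x : ∀ v, Fin (n v) → ℤ}
    (hx : x ∈ PS G M D X m) : x ∈ Pts G M B ∧ ∀ v, ht (x v) ≤ X v ∧ X v < D * ht (x v) := by
  rw [mem_PS] at hx
  obtain ⟨x1, x2, x3, x4, x5⟩ := hx
  refine ⟨⟨fun v => (x2 v v.2).1, fun u v h => x4 u v u.2 v.2 h, ?_, ?_⟩,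
    fun v => ⟨x1 v, (x2 v v.2).2⟩⟩
  · intro v
    rw [← linearIndependent_algebraMap_comp_iff (R := ℤ) (S := ℝ)]
    have h4 := x5 v
    have h5 : {u : Fin m | G.Adj v u ∧ u.val < m} = {u | G.Adj v u} := by
      ext u
      simp
    rw [h5] at h4
    exact h4
  · refine le_trans ?_ hB
    apply Finset.prod_le_prod
    · intro v _
      positivity
    · intro v _
      have : (ht (x v) : ℝ) ≤ X v := by exact_mod_cast x1 v
      gcongr

/-- A product over an initial segment. -/
theorem prod_Iio_le {m : ℕ} {Y : Fin m → ℕ} {b s ℓ : ℕ} (hb : 1 ≤ b) (hs : 1 ≤ s) (v : Fin m)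
    (hY : ∀ u, u < v → Y u ≤ b ^ (2 * s ^ u.val * ℓ)) :
    ∏ u ∈ Iio v, Y u ≤ b ^ (2 * m * s ^ (v.val - 1) * ℓ) := by
  calc ∏ u ∈ Iio v, Y u ≤ ∏ u ∈ Iio v, b ^ (2 * s ^ (v.val - 1) * ℓ) := by
        apply Finset.prod_le_prod'
        intro u hu
        rw [mem_Iio] at hu
        refine (hY u hu).trans ?_
        apply Nat.pow_le_pow_right hb
        have h1 : s ^ u.val ≤ s ^ (v.val - 1) := Nat.pow_le_pow_right hs (by
          have : u.val < v.val := hu
          omega)
        gcongr
    _ = b ^ (2 * s ^ (v.val - 1) * ℓ * (Iio v).card) := by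
        rw [Finset.prod_const, ← pow_mul]
    _ ≤ b ^ (2 * m * s ^ (v.val - 1) * ℓ) := by
        apply Nat.pow_le_pow_right hb
        have h1 : (Iio v).card ≤ m := by
          have := Finset.card_le_univ (Iio v)
          rwa [Fintype.card_fin] at this
        calc 2 * s ^ (v.val - 1) * ℓ * (Iio v).card ≤ 2 * s ^ (v.val - 1) * ℓ * m := by gcongr
          _ = _ := by ring

open Classical in
/-- The lower bound for integral heights. -/
theorem lower_nat {m : ℕ} {n : Fin (m + 1) → ℕ} {G : SimpleGraph (Fin (m + 1))}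
    {M : ∀ u v : Fin (m + 1), Matrix (Fin (n u)) (Fin (n v)) ℤ}
    (hM : ∀ u v, M v u = (M u v)ᵀ) (hR : RankCond G M) (hn : ∀ v, dg G v + 2 ≤ n v) :
    ∃ (c : ℝ) (L₀ : ℕ), 0 < c ∧ 1 ≤ L₀ ∧ ∀ B : ℕ, L₀ ≤ Nat.log 2 B →
    ∃ P : Finset (∀ v, Fin (n v) → ℤ), (∀ x ∈ P, x ∈ Pts G M (B : ℝ)) ∧
      c * (B * (Nat.log 2 B : ℝ) ^ m) ≤ P.card := by
  obtain ⟨c, D, E, p, hc, hD, hE, hbox⟩ := box_low hM hR hn
  have hD1 : 1 ≤ D := by omega
  set la : Fin (m + 1) := Fin.last m with hla
  set e : Fin (m + 1) → ℕ := fun v => n v - dg G v with he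
  have he1 : ∀ v, 1 ≤ e v := by
    intro v
    have := hn v
    simp only [he]
    omega
  set s : ℕ := 2 * (m + 1) * p + E + 1 with hs
  have hs1 : 1 ≤ s := by omega
  set e0 : ℕ := E with he0
  have hED : E ≤ D ^ e0 := (Nat.lt_pow_self (by omega : 1 < D)).le
  -- the total exponent of the variables except the last one
  set tot : ℕ := e0 + 2 * (m + 1) * s ^ m * p + 1 with htot
  set es : ℕ := ∑ v, e v with hes
  set q : ℕ := D * (tot * es + 2 * s ^ m * es + 1) with hq
  have hq0 : 0 < q := by positivity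
  have hq' : (0 : ℝ) < q := by exact_mod_cast hq0
  refine ⟨c / 2 ^ (e la) / (2 * q) ^ m, 2 * q * (e0 + 1), by positivity, by
    have : 0 < 2 * q * (e0 + 1) := by positivity
    omega, ?_⟩
  intro B hB
  set L := Nat.log 2 B with hL
  have hB0 : B ≠ 0 := by
    rintro rfl
    simp only [Nat.log_zero_right] at hL
    have : 0 < 2 * q * (e0 + 1) := by positivity
    omega
  have hLB : 2 ^ L ≤ B := Nat.pow_log_le_self 2 hB0
  have hB0' : (0 : ℝ) < B := by exact_mod_cast Nat.pos_of_ne_zero hB0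
  set ℓ := L / q with hℓ
  have hℓL : q * ℓ ≤ L := Nat.mul_div_le L q
  have hℓe : e0 + 1 ≤ ℓ := by
    rw [hℓ, Nat.le_div_iff_mul_le hq0]
    calc (e0 + 1) * q ≤ 2 * q * (e0 + 1) := by nlinarith
      _ ≤ L := hB
  have hℓ2 : (L : ℝ) / (2 * q) ≤ ℓ := by
    rw [div_le_iff₀ (by positivity)]
    have e1 : L < q * (ℓ + 1) := Nat.lt_mul_div_succ L hq0
    have e2 : (L : ℝ) < q * (ℓ + 1) := by exact_mod_cast e1
    have e3 : (1 : ℝ) ≤ ℓ := by exact_mod_cast (by omega : 1 ≤ ℓ)
    nlinarith
  -- the exponents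
  set J : Finset (Fin (m + 1) → ℕ) := Fintype.piFinset fun v =>
    if v = la then {0} else Icc (s ^ v.val * ℓ) (2 * s ^ v.val * ℓ) with hJ
  have hmemJ : ∀ j ∈ J, ∀ v, v ≠ la → s ^ v.val * ℓ ≤ j v ∧ j v ≤ 2 * s ^ v.val * ℓ := by
    intro j hj v hv
    rw [hJ, Fintype.mem_piFinset] at hj
    have := hj v
    rwa [if_neg hv, mem_Icc] at this
  have hmemJ0 : ∀ j ∈ J, j la = 0 := by
    intro j hj
    rw [hJ, Fintype.mem_piFinset] at hj
    have := hj la
    rwa [if_pos rfl, mem_singleton] at this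
  have hlt : ∀ v : Fin (m + 1), v ≠ la → v < la := fun v hv => Fin.lt_last_iff_ne_last.2 hv
  -- the boxes
  have hZ : ∀ j ∈ J, ∃ Z : ℕ, E * (∏ u ∈ Iio la, D ^ j u) ^ p ≤ Z ∧
      (∏ u ∈ Iio la, ((D ^ j u : ℕ) : ℝ) ^ e u) * (Z : ℝ) ^ e la ≤ B ∧
      (B : ℝ) / 2 ^ e la ≤ (∏ u ∈ Iio la, ((D ^ j u : ℕ) : ℝ) ^ e u) * (Z : ℝ) ^ e la := by
    intro j hj
    set T : ℝ := ∏ u ∈ Iio la, ((D ^ j u : ℕ) : ℝ) ^ e u with hT
    have hT0 : 0 < T := by
      rw [hT]
      apply Finset.prod_pos
      intro u _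
      have : 0 < D ^ j u := by positivity
      have h' : (0 : ℝ) < ((D ^ j u : ℕ) : ℝ) := by exact_mod_cast this
      positivity
    have hnat : (E * (∏ u ∈ Iio la, D ^ j u) ^ p) ^ e la * ∏ u ∈ Iio la, (D ^ j u) ^ e u ≤ B := by
      have k1 : ∏ u ∈ Iio la, D ^ j u ≤ D ^ (2 * (m + 1) * s ^ m * ℓ) := by
        refine (prod_Iio_le hD1 hs1 la (Y := fun u => D ^ j u) (ℓ := ℓ) (fun u hu =>
          Nat.pow_le_pow_right hD1 (hmemJ j hj u hu.ne).2)).trans ?_
        apply Nat.pow_le_pow_right hD1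
        have h1 : s ^ (la.val - 1) ≤ s ^ m := Nat.pow_le_pow_right hs1 (by
          have : la.val = m := Fin.val_last m
          omega)
        gcongr
      have k2 : ∏ u ∈ Iio la, (D ^ j u) ^ e u ≤ D ^ (2 * s ^ m * ℓ * es) := by
        calc ∏ u ∈ Iio la, (D ^ j u) ^ e u ≤ ∏ u ∈ Iio la, D ^ (2 * s ^ m * ℓ * e u) := by
              apply Finset.prod_le_prod'
              intro u hu
              rw [mem_Iio] at hu
              rw [← pow_mul]
              apply Nat.pow_le_pow_right hD1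
              have h1 := (hmemJ j hj u hu.ne).2
              have h2 : s ^ u.val ≤ s ^ m := Nat.pow_le_pow_right hs1 (by
                have := u.2
                omega)
              have h3 : j u ≤ 2 * s ^ m * ℓ := h1.trans (by gcongr)
              gcongr
          _ = D ^ (∑ u ∈ Iio la, 2 * s ^ m * ℓ * e u) := by rw [Finset.prod_pow_eq_pow_sum]
          _ ≤ D ^ (2 * s ^ m * ℓ * es) := by
              apply Nat.pow_le_pow_right hD1
              rw [← Finset.mul_sum]
              apply Nat.mul_le_mul_left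
              rw [hes]
              exact Finset.sum_le_sum_of_subset (Finset.subset_univ _)
      have k3 : E * (∏ u ∈ Iio la, D ^ j u) ^ p ≤ D ^ (tot * ℓ) := by
        calc E * (∏ u ∈ Iio la, D ^ j u) ^ p ≤ D ^ e0 * (D ^ (2 * (m + 1) * s ^ m * ℓ)) ^ p := by
              gcongr
          _ = D ^ (e0 + 2 * (m + 1) * s ^ m * ℓ * p) := by rw [← pow_mul, ← pow_add]
          _ ≤ D ^ (tot * ℓ) := by
              apply Nat.pow_le_pow_right hD1
              rw [htot]
              have : 1 ≤ ℓ := by omega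
              nlinarith
      have k4 : e la ≤ es := by
        rw [hes]
        exact Finset.single_le_sum (f := e) (fun _ _ => Nat.zero_le _) (mem_univ la)
      calc (E * (∏ u ∈ Iio la, D ^ j u) ^ p) ^ e la * ∏ u ∈ Iio la, (D ^ j u) ^ e u
          ≤ (D ^ (tot * ℓ)) ^ e la * D ^ (2 * s ^ m * ℓ * es) := by gcongr
        _ ≤ (D ^ (tot * ℓ)) ^ es * D ^ (2 * s ^ m * ℓ * es) := by
            have : 1 ≤ D ^ (tot * ℓ) := Nat.one_le_iff_ne_zero.2 (by positivity)
            gcongr
        _ = D ^ ((tot * es + 2 * s ^ m * es) * ℓ) := by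
            rw [← pow_mul, ← pow_add]
            congr 1
            ring
        _ ≤ (2 ^ D) ^ ((tot * es + 2 * s ^ m * es) * ℓ) := by
            have : D ≤ 2 ^ D := Nat.lt_two_pow_self.le
            gcongr
        _ = 2 ^ (D * ((tot * es + 2 * s ^ m * es) * ℓ)) := by rw [← pow_mul]
        _ ≤ 2 ^ L := by
            apply Nat.pow_le_pow_right (by norm_num)
            refine le_trans ?_ hℓL
            rw [hq]
            calc D * ((tot * es + 2 * s ^ m * es) * ℓ) =
                D * (tot * es + 2 * s ^ m * es) * ℓ := by ring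
              _ ≤ D * (tot * es + 2 * s ^ m * es + 1) * ℓ :=
                  Nat.mul_le_mul_right _ (Nat.mul_le_mul_left _ (Nat.le_succ _))
        _ ≤ B := hLB
    have hqq : ((E * (∏ u ∈ Iio la, D ^ j u) ^ p : ℕ) : ℝ) ^ e la ≤ B / T := by
      rw [le_div_iff₀ hT0, hT]
      exact_mod_cast hnat
    obtain ⟨Z, hZ1, hZ2, hZ3⟩ := root (B / T) (e la) _ (he1 la) (by
      apply Nat.one_le_iff_ne_zero.2
      have : ∏ u ∈ Iio la, D ^ j u ≠ 0 := by
        rw [Finset.prod_ne_zero_iff]
        intro u _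
        positivity
      positivity) hqq
    refine ⟨Z, hZ1, ?_, ?_⟩
    · rw [le_div_iff₀ hT0] at hZ2
      linarith
    · rw [div_le_iff₀ hT0] at hZ3
      rw [div_le_iff₀ (by positivity)]
      linarith
  choose! Z hZ1 hZ2 hZ3 using hZ
  set X : (Fin (m + 1) → ℕ) → Fin (m + 1) → ℕ := fun j v => if v = la then Z j else D ^ j v
    with hX
  have hXla : ∀ j, X j la = Z j := fun j => by simp only [hX, if_true]
  have hXne : ∀ j v, v ≠ la → X j v = D ^ j v := fun j v hv => by simp only [hX, if_neg hv]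
  have hgr : ∀ j ∈ J, ∀ v, E * (∏ u ∈ Iio v, X j u) ^ p ≤ X j v := by
    intro j hj v
    have hprod : ∏ u ∈ Iio v, X j u = ∏ u ∈ Iio v, D ^ j u := by
      apply Finset.prod_congr rfl
      intro u hu
      rw [mem_Iio] at hu
      apply hXne
      rintro rfl
      exact absurd hu (not_lt.2 (Fin.le_last v))
    rw [hprod]
    by_cases hv : v = la
    · subst hv
      rw [hXla]
      exact hZ1 j hj
    · rw [hXne j v hv]
      have hjv := (hmemJ j hj v hv).1
      rcases Nat.eq_zero_or_pos v.val with h0 | h0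
      · have h1 : (Iio v : Finset (Fin (m + 1))) = ∅ := by
          rw [Finset.eq_empty_iff_forall_notMem]
          intro u hu
          rw [mem_Iio] at hu
          have : u.val < v.val := hu
          omega
        rw [h1, Finset.prod_empty, one_pow, mul_one]
        refine hED.trans (Nat.pow_le_pow_right hD1 ?_)
        rw [h0, pow_zero, one_mul] at hjv
        omega
      · have h1 := prod_Iio_le hD1 hs1 v (Y := fun u => D ^ j u) (ℓ := ℓ) (fun u hu =>
          Nat.pow_le_pow_right hD1 (hmemJ j hj u (by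
            rintro rfl
            exact absurd hu (not_lt.2 (Fin.le_last v)))).2)
        calc E * (∏ u ∈ Iio v, D ^ j u) ^ p
            ≤ D ^ e0 * (D ^ (2 * (m + 1) * s ^ (v.val - 1) * ℓ)) ^ p := by gcongr
          _ = D ^ (e0 + 2 * (m + 1) * s ^ (v.val - 1) * ℓ * p) := by rw [← pow_mul, ← pow_add]
          _ ≤ D ^ j v := by
              apply Nat.pow_le_pow_right hD1
              refine le_trans ?_ hjv
              have h2 : s ^ v.val = s * s ^ (v.val - 1) := by
                rw [← pow_succ']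
                congr 1
                omega
              have h3 : 1 ≤ s ^ (v.val - 1) := Nat.one_le_iff_ne_zero.2 (by positivity)
              have h4 : e0 ≤ s ^ (v.val - 1) * ℓ := by
                calc e0 ≤ 1 * ℓ := by omega
                  _ ≤ _ := Nat.mul_le_mul_right _ h3
              rw [h2]
              have h5 : 2 * (m + 1) * p + 1 ≤ s := by omega
              calc e0 + 2 * (m + 1) * s ^ (v.val - 1) * ℓ * p
                  ≤ s ^ (v.val - 1) * ℓ + 2 * (m + 1) * s ^ (v.val - 1) * ℓ * p := by gcongr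
                _ = (2 * (m + 1) * p + 1) * s ^ (v.val - 1) * ℓ := by ring
                _ ≤ s * s ^ (v.val - 1) * ℓ := by gcongr
  have hsplit : ∀ (f : Fin (m + 1) → ℝ), ∏ v, f v = (∏ u ∈ Iio la, f u) * f la := by
    intro f
    have h1 : (univ : Finset (Fin (m + 1))) = insert la (Iio la) := by
      ext v
      simp only [mem_univ, mem_insert, mem_Iio, true_iff]
      by_cases hv : v = la
      · exact Or.inl hv
      · exact Or.inr (hlt v hv)
    rw [h1, Finset.prod_insert (by simp)]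
    ring
  have hXprod : ∀ j ∈ J, ∏ v, (X j v : ℝ) ^ e v =
      (∏ u ∈ Iio la, ((D ^ j u : ℕ) : ℝ) ^ e u) * (Z j : ℝ) ^ e la := by
    intro j _
    rw [hsplit, hXla]
    congr 1
    apply Finset.prod_congr rfl
    intro u hu
    rw [mem_Iio] at hu
    rw [hXne j u hu.ne]
  set P : Finset (∀ v, Fin (n v) → ℤ) := J.biUnion fun j => PS G M D (X j) (m + 1) with hP
  have hmem : ∀ j ∈ J, ∀ x ∈ PS G M D (X j) (m + 1), x ∈ Pts G M (B : ℝ) ∧
      ∀ v, ht (x v) ≤ X j v ∧ X j v < D * ht (x v) := by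
    intro j hj x hx
    exact PS_sub (by
      have h1 := hXprod j hj
      have h2 := hZ2 j hj
      rw [← h1] at h2
      exact h2) hx
  refine ⟨P, ?_, ?_⟩
  · intro x hx
    rw [hP, mem_biUnion] at hx
    obtain ⟨j, hj, hxj⟩ := hx
    exact (hmem j hj x hxj).1
  · have hdisj : ∀ j ∈ J, ∀ j' ∈ J, j ≠ j' →
        Disjoint (PS G M D (X j) (m + 1)) (PS G M D (X j') (m + 1)) := by
      intro j hj j' hj' hne
      rw [Finset.disjoint_left]
      intro x hx hx'
      apply hne
      funext v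
      by_cases hv : v = la
      · subst hv
        rw [hmemJ0 j hj, hmemJ0 j' hj']
      · have a1 := (hmem j hj x hx).2 v
        have a2 := (hmem j' hj' x hx').2 v
        rw [hXne j v hv] at a1
        rw [hXne j' v hv] at a2
        have key : ∀ a b : ℕ, ht (x v) ≤ D ^ a → D ^ b < D * ht (x v) → ¬ a < b := by
          intro a b h1 h2 h3
          have h4 : D ^ (a + 1) ≤ D ^ b := Nat.pow_le_pow_right hD1 h3
          rw [pow_succ'] at h4
          have h5 : D * ht (x v) ≤ D * D ^ a := Nat.mul_le_mul_left _ h1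
          omega
        have b1 := key (j v) (j' v) a1.1 a2.2
        have b2 := key (j' v) (j v) a2.1 a1.2
        omega
    have hcard : P.card = ∑ j ∈ J, (PS G M D (X j) (m + 1)).card := by
      rw [hP, Finset.card_biUnion hdisj]
    have hone : ∀ j ∈ J, c / 2 ^ (e la) * B ≤ ((PS G M D (X j) (m + 1)).card : ℝ) := by
      intro j hj
      have h1 := hbox (X j) (hgr j hj)
      have h2 := hZ3 j hj
      rw [← hXprod j hj] at h2
      calc c / 2 ^ (e la) * B = c * (B / 2 ^ e la) := by ring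
        _ ≤ c * ∏ v, (X j v : ℝ) ^ e v := by gcongr
        _ ≤ _ := h1
    have hJc : (ℓ : ℝ) ^ m ≤ (J.card : ℝ) := by
      have h1 : ℓ ^ m ≤ J.card := by
        rw [hJ, Fintype.card_piFinset, Fin.prod_univ_castSucc]
        have h2 : (if Fin.last m = la then ({0} : Finset ℕ) else
            Icc (s ^ (Fin.last m).val * ℓ) (2 * s ^ (Fin.last m).val * ℓ)).card = 1 := by
          rw [if_pos rfl, card_singleton]
        rw [h2, mul_one]
        calc ℓ ^ m = ∏ _i : Fin m, ℓ := by simp
          _ ≤ _ := by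
              apply Finset.prod_le_prod'
              intro i _
              have h3 : (Fin.castSucc i : Fin (m + 1)) ≠ la := by
                intro h
                have := congrArg Fin.val h
                have h4 := i.2
                have h5 : la.val = m := Fin.val_last m
                rw [h5] at this
                have h6 : (Fin.castSucc i).val = i.val := rfl
                omega
              rw [if_neg h3, Nat.card_Icc]
              have h4 : 1 ≤ s ^ (Fin.castSucc i).val := Nat.one_le_iff_ne_zero.2 (by positivity)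
              have h5 : ℓ ≤ s ^ (Fin.castSucc i).val * ℓ := Nat.le_mul_of_pos_left _ h4
              have h6 : 2 * s ^ (Fin.castSucc i).val * ℓ = 2 * (s ^ (Fin.castSucc i).val * ℓ) := by
                ring
              omega
      exact_mod_cast h1
    calc c / 2 ^ (e la) / (2 * q) ^ m * (B * (L : ℝ) ^ m)
        = (L / (2 * q)) ^ m * (c / 2 ^ (e la) * B) := by
          rw [div_pow]
          ring
      _ ≤ (ℓ : ℝ) ^ m * (c / 2 ^ (e la) * B) := by gcongr
      _ ≤ (J.card : ℝ) * (c / 2 ^ (e la) * B) := by gcongr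
      _ = ∑ j ∈ J, c / 2 ^ (e la) * (B : ℝ) := by
          rw [Finset.sum_const, nsmul_eq_mul]
      _ ≤ ∑ j ∈ J, ((PS G M D (X j) (m + 1)).card : ℝ) := Finset.sum_le_sum hone
      _ = (P.card : ℝ) := by
          rw [hcard]
          push_cast
          rfl

end Pool.Agent.R546.GL
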