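import Mathlib
import Pool.Agent.R546.GL.Sum
import Pool.Agent.R546.GW.Main

/-! Both bounds for the anticanonical height. -/

namespace Pool.Agent.R546.GL

open Finset Module Matrix
open Pool.Agent.H548.WM (ht Rep)
open Pool.Agent.R546.GW

variable {m : ℕ} {n : Fin m → ℕ}

/-- The anticanonical weights. -/
noncomputable def aw (G : SimpleGraph (Fin m)) (n : Fin m → ℕ) (v : Fin m) : ℝ :=
  ((n v - dg G v : ℕ) : ℝ)

theorem aw_pos {G : SimpleGraph (Fin m)} (hn : ∀ v, dg G v + 2 ≤ n v) (v : Fin m) :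
    0 < aw G n v := by
  unfold aw
  have := hn v
  exact_mod_cast (by omega : 0 < n v - dg G v)

theorem fuj_aw {G : SimpleGraph (Fin m)} (hm : 0 < m) (hn : ∀ v, dg G v + 2 ≤ n v) :
    fuj G n (aw G n) = 1 := by
  have hmem : (1 : ℝ) ∈ {t : ℝ | ∀ v, 0 ≤ t * aw G n v - ((n v - dg G v : ℕ) : ℝ)} := by
    intro v
    unfold aw
    linarith
  apply le_antisymm
  · unfold fuj
    apply csInf_le _ hmem
    refine ⟨1, ?_⟩
    intro t ht'
    have h1 := ht' ⟨0, hm⟩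
    have h2 := aw_pos hn ⟨0, hm⟩
    have h3 : ((n ⟨0, hm⟩ - dg G ⟨0, hm⟩ : ℕ) : ℝ) = aw G n ⟨0, hm⟩ := rfl
    rw [h3] at h1
    by_contra hc
    push Not at hc
    nlinarith
  · have h1 := fuj_le G n (aw_pos hn) ⟨0, hm⟩
    have h2 := aw_pos hn ⟨0, hm⟩
    have h3 : ((n ⟨0, hm⟩ - dg G ⟨0, hm⟩ : ℕ) : ℝ) = aw G n ⟨0, hm⟩ := rfl
    rw [h3] at h1
    by_contra hc
    push Not at hc
    nlinarith

theorem Pts_eq (G : SimpleGraph (Fin m)) (M : ∀ u v : Fin m, Matrix (Fin (n u)) (Fin (n v)) ℤ)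
    (B : ℝ) : Pts G M B = heightSet G M (aw G n) B := by
  ext x
  unfold Pts heightSet aw
  simp only [Set.mem_ofPred_eq, Real.rpow_natCast]

theorem upper_aw {G : SimpleGraph (Fin m)} {M : ∀ u v : Fin m, Matrix (Fin (n u)) (Fin (n v)) ℤ}
    (hm : 0 < m) (hM : ∀ u v, M v u = (M u v)ᵀ) (hR : RankCond G M)
    (hn : ∀ v, dg G v + 2 ≤ n v) (ε : ℝ) (hε : 0 < ε) :
    ∃ C : ℝ, ∀ B : ℝ, 1 ≤ B → (Pts G M B).Finite ∧ ((Pts G M B).ncard : ℝ) ≤ C * B ^ (1 + ε) := by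
  obtain ⟨C, hC⟩ := upper hm hM hR hn (aw G n) (aw_pos hn) ε hε
  rw [fuj_aw hm hn] at hC
  refine ⟨C, fun B hB => ?_⟩
  rw [Pts_eq]
  exact hC B hB

/-- The lower bound. -/
theorem lower {m : ℕ} {n : Fin (m + 1) → ℕ} {G : SimpleGraph (Fin (m + 1))}
    {M : ∀ u v : Fin (m + 1), Matrix (Fin (n u)) (Fin (n v)) ℤ}
    (hM : ∀ u v, M v u = (M u v)ᵀ) (hR : RankCond G M) (hn : ∀ v, dg G v + 2 ≤ n v) :
    ∃ c B₀ : ℝ, 0 < c ∧ ∀ B : ℝ, B₀ ≤ B → c * B * Real.log B ^ m ≤ ((Pts G M B).ncard : ℝ) := by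
  obtain ⟨c, L₀, hc, hL1, h⟩ := lower_nat hM hR hn
  refine ⟨c / (2 * 2 ^ m), 2 ^ L₀ + 1, by positivity, ?_⟩
  intro X hX
  have hp : (1 : ℝ) ≤ 2 ^ L₀ := one_le_pow₀ (by norm_num)
  have hX1 : 1 ≤ X := by linarith
  set B := ⌊X⌋₊ with hB
  have hBX : (B : ℝ) ≤ X := Nat.floor_le (by linarith)
  have hXB : X < B + 1 := Nat.lt_floor_add_one X
  have hB1 : 2 ^ L₀ ≤ B := by
    apply Nat.le_floor
    push_cast
    linarith
  have hB0 : B ≠ 0 := by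
    have : 0 < 2 ^ L₀ := by positivity
    omega
  have hLL : L₀ ≤ Nat.log 2 B := Nat.le_log_of_pow_le (by norm_num) hB1
  obtain ⟨P, hP, hPc⟩ := h B hLL
  have hfin := ((upper_aw (by omega) hM hR hn 1 one_pos).choose_spec X hX1).1
  have hsub : (↑P : Set (∀ v, Fin (n v) → ℤ)) ⊆ Pts G M X := by
    intro x hx
    obtain ⟨a1, a2, a3, a4⟩ := hP x hx
    exact ⟨a1, a2, a3, a4.trans hBX⟩
  have h5 := Set.ncard_le_ncard hsub hfin
  rw [Set.ncard_coe_finset] at h5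
  have h5' : (P.card : ℝ) ≤ ((Pts G M X).ncard : ℝ) := by exact_mod_cast h5
  refine le_trans ?_ (hPc.trans h5')
  set L := Nat.log 2 B with hL
  have hL1' : (1 : ℝ) ≤ L := by exact_mod_cast hL1.trans hLL
  have h4 : B + 1 ≤ 2 ^ (L + 1) := Nat.lt_pow_succ_log_self (by norm_num) B
  have h6 : X ≤ (2 : ℝ) ^ (L + 1) := by
    have : ((B : ℝ) + 1) ≤ (2 : ℝ) ^ (L + 1) := by exact_mod_cast h4
    linarith
  have h7 : Real.log X ≤ 2 * L := by
    calc Real.log X ≤ Real.log ((2 : ℝ) ^ (L + 1)) := Real.log_le_log (by linarith) h6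
      _ = ((L + 1 : ℕ) : ℝ) * Real.log 2 := by rw [Real.log_pow]
      _ ≤ ((L + 1 : ℕ) : ℝ) * 1 := by
          gcongr
          have := Real.log_two_lt_d9
          linarith
      _ ≤ 2 * L := by
          push_cast
          linarith
  have h8 : 0 ≤ Real.log X := Real.log_nonneg hX1
  have hB1' : (1 : ℝ) ≤ B := by exact_mod_cast Nat.one_le_iff_ne_zero.2 hB0
  have h9 : X ≤ 2 * B := by linarith
  calc c / (2 * 2 ^ m) * X * Real.log X ^ m
      ≤ c / (2 * 2 ^ m) * (2 * B) * (2 * (L : ℝ)) ^ m := by gcongr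
    _ = c * (B * (L : ℝ) ^ m) := by
        rw [mul_pow]
        field_simp

end Pool.Agent.R546.GL
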